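import Pool.Agent.H38.AT.Targets
import Pool.Agent.H82.TG.Cov

/-!
# A good set of primes of an entry
-/

set_option autoImplicit false

namespace Pool.Agent.H14.AT

open Finset
open Pool.Agent.H38.RB Pool.Agent.H38.PS Pool.Agent.H38.AE Pool.Agent.H23.AF
open Pool.Agent.H59.AB (log_pd)
open Pool.Agent.H82.TG (tp_dvd' tp_pf' pd_pos')
open Pool.Agent.H38.AT (NW T_CVE)

theorem pf_CVE : T_CVE := by
  intro n H x i j k X W z g γ G hx hij hik hjk hX hW0 hW hG hg hγ h1 h2 h3 h4
  have hX0 : 0 < X := by linarith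
  have hl : 0 < Real.log X := Real.log_pos hX
  have hn0 : (x k).natAbs ≠ 0 := Int.natAbs_ne_zero.2 (hx.1 _)
  have hp : ∀ p ∈ G, p.Prime := fun p h => Nat.prime_of_mem_primeFactors (hG h)
  have hrad : ((rad (tp G (x k).natAbs) : ℕ) : ℝ) = X ^ g := by
    have e1 : rad (tp G (x k).natAbs) = pd G := by
      unfold rad pd
      rw [tp_pf' hn0 hG]
    have hgl : Real.log X * g = Real.log (pd G : ℝ) := by
      rw [mul_comm, hg, log_pd G hp]
    rw [e1, Real.rpow_def_of_pos hX0, hgl, Real.exp_log (pd_pos' hp)]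
  have htp0 : 0 < tp G (x k).natAbs := by
    unfold tp
    exact Finset.prod_pos fun p h => pow_pos (hp p h).pos _
  have hq : ((tp G (x k).natAbs : ℕ) : ℝ) = X ^ γ := by
    have hγl : Real.log X * γ = Real.log (tp G (x k).natAbs : ℝ) := by
      rw [mul_comm, hγ, smo_log_tp G hp]
    rw [Real.rpow_def_of_pos hX0, hγl, Real.exp_log (by exact_mod_cast htp0)]
  have hRR : ∀ l, 1 ≤ RR (x l) ∧ RR (x l) ≤ X ^ W := by
    intro l
    have e0 : (0 : ℝ) < pd (x l).natAbs.primeFactors :=
      pd_pos' fun p hp => Nat.prime_of_mem_primeFactors hp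
    have e1 : RR (x l) = (pd (x l).natAbs.primeFactors : ℝ) := rfl
    constructor
    · rw [e1]
      have : 0 < pd (x l).natAbs.primeFactors := by exact_mod_cast e0
      exact_mod_cast this
    · rw [e1, ← Real.log_le_log_iff e0 (by positivity), Real.log_rpow hX0, ← e1]
      exact hW l
  refine ⟨hx, i, j, k, tp G (x k).natAbs, hij, hik, hjk, htp0, ?_, ?_⟩
  · rw [Int.natCast_dvd]
    exact tp_dvd' hn0 hG
  · obtain ⟨-, hWE2, -, -⟩ := Pool.Agent.H48.AF.pf_WE
    have hq1 : (1 : ℝ) ≤ ((tp G (x k).natAbs : ℕ) : ℝ) := by exact_mod_cast htp0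
    have hw : ∀ l, w5 ((tp G (x k).natAbs : ℕ) : ℝ) (RR (x l)) ≤ w5 (X ^ γ) (X ^ W) := by
      intro l
      refine (hWE2 _ _ _ hq1 (hRR l).1 (hRR l).2).trans ?_
      rw [hq]
    have hw0 : 0 ≤ w5 (X ^ γ) (X ^ W) := by
      unfold w5
      positivity
    have hwn : ∀ l, 0 ≤ w5 ((tp G (x k).natAbs : ℕ) : ℝ) (RR (x l)) := by
      intro l
      unfold w5
      have : 0 ≤ RR (x l) := by linarith [(hRR l).1]
      positivity
    have hsq : Real.sqrt (w5 ((tp G (x k).natAbs : ℕ) : ℝ) (RR (x i)) *
        w5 ((tp G (x k).natAbs : ℕ) : ℝ) (RR (x j))) ≤ w5 (X ^ γ) (X ^ W) := by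
      have e4 : w5 ((tp G (x k).natAbs : ℕ) : ℝ) (RR (x i)) *
          w5 ((tp G (x k).natAbs : ℕ) : ℝ) (RR (x j)) ≤ w5 (X ^ γ) (X ^ W) ^ 2 := by
        rw [pow_two]
        exact mul_le_mul (hw _) (hw _) (hwn _) hw0
      calc _ ≤ Real.sqrt (w5 (X ^ γ) (X ^ W) ^ 2) := Real.sqrt_le_sqrt e4
        _ = _ := Real.sqrt_sq hw0
    -- the other entries
    have hcard : ((Finset.univ.filter (fun l => l ≠ i ∧ l ≠ j ∧ l ≠ k)).card : ℝ) = n - 3 := by
      have e1 : (Finset.univ.filter (fun l => l ≠ i ∧ l ≠ j ∧ l ≠ k)) =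
          Finset.univ \ ({i, j, k} : Finset (Fin n)) := by
        ext l
        simp only [Finset.mem_filter, Finset.mem_univ, true_and, Finset.mem_sdiff,
          Finset.mem_insert, Finset.mem_singleton, not_or]
      have e2 : ({i, j, k} : Finset (Fin n)).card = 3 := by
        rw [Finset.card_insert_of_notMem, Finset.card_insert_of_notMem, Finset.card_singleton]
        · simpa using hjk
        · simp only [Finset.mem_insert, Finset.mem_singleton, not_or]
          exact ⟨hij, hik⟩
      have e3 : 3 ≤ n := by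
        have := Finset.card_le_univ ({i, j, k} : Finset (Fin n))
        rw [e2, Fintype.card_fin] at this
        exact this
      rw [e1, Finset.card_sdiff_of_subset (Finset.subset_univ _), e2, Finset.card_univ,
        Fintype.card_fin, Nat.cast_sub e3]
      norm_num
    have hprod : ∏ l ∈ Finset.univ.filter (fun l => l ≠ i ∧ l ≠ j ∧ l ≠ k), RR (x l) ≤
        X ^ (((n : ℝ) - 3) * W) := by
      calc _ ≤ ∏ _l ∈ Finset.univ.filter (fun l => l ≠ i ∧ l ≠ j ∧ l ≠ k), X ^ W :=
            Finset.prod_le_prod (fun l _ => by linarith [(hRR l).1]) fun l _ => (hRR l).2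
        _ = X ^ (((n : ℝ) - 3) * W) := by
            rw [Finset.prod_const, ← Real.rpow_natCast, ← Real.rpow_mul hX0.le, hcard, mul_comm]
    have hP0 : 0 ≤ ∏ l ∈ Finset.univ.filter (fun l => l ≠ i ∧ l ≠ j ∧ l ≠ k), RR (x l) :=
      Finset.prod_nonneg fun l _ => by linarith [(hRR l).1]
    rw [hrad]
    calc X ^ g * (∏ l ∈ Finset.univ.filter (fun l => l ≠ i ∧ l ≠ j ∧ l ≠ k), RR (x l)) *
          Real.sqrt (w5 ((tp G (x k).natAbs : ℕ) : ℝ) (RR (x i)) *
            w5 ((tp G (x k).natAbs : ℕ) : ℝ) (RR (x j)))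
        ≤ X ^ g * X ^ (((n : ℝ) - 3) * W) * w5 (X ^ γ) (X ^ W) :=
          mul_le_mul (mul_le_mul_of_nonneg_left hprod (by positivity)) hsq
            (Real.sqrt_nonneg _) (by positivity)
      _ = X ^ (g + (n - 2) * W) + X ^ (g + (n - 1) * W - γ) +
          X ^ (g + (n - 3) * W + 9 / 5 * W - 3 / 5 * γ) +
          X ^ (g + (n - 3) * W + 7 / 5 * W - 1 / 5 * γ) := by
          rw [← Real.rpow_add hX0]
          unfold w5
          rw [mul_add, mul_add, mul_add, mul_add, mul_add, mul_add, mul_one]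
          congr 1
          · congr 1
            · congr 1
              · rw [← Real.rpow_add hX0]
                congr 1
                ring
              · rw [← Real.rpow_sub hX0, ← Real.rpow_add hX0, ← Real.rpow_add hX0]
                congr 1
                ring
            · rw [← Real.rpow_mul hX0.le, ← Real.rpow_mul hX0.le, ← Real.rpow_sub hX0,
                ← Real.rpow_add hX0, ← Real.rpow_add hX0]
              congr 1
              ring
          · rw [← Real.rpow_natCast (X ^ W) 2, ← Real.rpow_mul hX0.le,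
              ← Real.rpow_sub hX0, ← Real.rpow_mul hX0.le, ← Real.rpow_add hX0,
              ← Real.rpow_add hX0]
            congr 1
            push_cast
            ring
      _ ≤ X ^ z + X ^ z + X ^ z + X ^ z := by
          have := Real.rpow_le_rpow_of_exponent_le hX.le h1
          have := Real.rpow_le_rpow_of_exponent_le hX.le h2
          have := Real.rpow_le_rpow_of_exponent_le hX.le h3
          have := Real.rpow_le_rpow_of_exponent_le hX.le h4
          gcongr
      _ = 4 * X ^ z := by ring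

end Pool.Agent.H14.AT
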