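import Pool.Agent.H38.AT.Targets

/-!
# The loss is small
-/

set_option autoImplicit false

namespace Pool.Agent.H14.AT

open Pool.Agent.H38.AB (Lo)
open Pool.Agent.H38.AT (T_NUN)

theorem pf_NUN : T_NUN := by
  intro K η hη
  have hK : (0 : ℝ) ≤ K := Nat.cast_nonneg K
  obtain ⟨ρ, hρdef⟩ : ∃ ρ : ℝ, ρ = η / (20 * (K + 1)) := ⟨_, rfl⟩
  have hρ : 0 < ρ := by rw [hρdef]; positivity
  have hρK : 20 * ((K : ℝ) * ρ) ≤ η := by
    have h1 : 20 * ((K + 1) * ρ) = η := by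
      rw [hρdef]
      field_simp
    nlinarith
  refine ⟨ρ, 1, hρ, le_refl _, ?_⟩
  intro X Ω V hX hΩ hΩX hV
  obtain ⟨y, hy⟩ : ∃ y : ℝ, y = Real.log X := ⟨_, rfl⟩
  have hX0 : 0 < X := by linarith
  have hye : Real.exp 1 ≤ y := by
    have h1 : Real.log 16 ≤ y := by rw [hy]; exact Real.log_le_log (by norm_num) hX
    have h2 : Real.log 16 = 4 * Real.log 2 := by
      rw [show (16 : ℝ) = 2 ^ (4 : ℕ) by norm_num, Real.log_pow]
      push_cast
      ring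
    have h3 := Real.exp_one_lt_d9
    have h4 := Real.log_two_gt_d9
    linarith
  have hy0 : 0 < y := (Real.exp_pos 1).trans_le hye
  have hy2 : 2 ≤ y := by
    have := Real.exp_one_gt_d9
    linarith
  obtain ⟨ℓ, hℓ⟩ : ∃ ℓ : ℝ, ℓ = Real.log y := ⟨_, rfl⟩
  have hℓ1 : 1 ≤ ℓ := by
    rw [hℓ, Real.le_log_iff_exp_le hy0]
    exact hye
  have hΩ0 : (0 : ℝ) < Ω := by exact_mod_cast hΩ
  have hΩ1 : (1 : ℝ) ≤ Ω := by exact_mod_cast hΩ
  rw [← hy, ← hℓ] at hΩX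
  have hΩy : (Ω : ℝ) ≤ ρ * y := by nlinarith
  -- the base
  obtain ⟨r, hr⟩ : ∃ r : ℝ, r = ρ / Ω := ⟨_, rfl⟩
  have hr0 : 0 < r := by rw [hr]; positivity
  rw [← hy, ← hr] at hV
  have hXr : X ^ r = Real.exp (r * y) := by
    rw [Real.rpow_def_of_pos hX0, ← hy, mul_comm]
  have hXr1 : 1 ≤ X ^ r := Real.one_le_rpow (by linarith) hr0.le
  have h72 : (72 : ℝ) ≤ Real.exp 5 := by
    have h1 : Real.exp 5 = Real.exp 1 ^ 5 := by
      rw [← Real.exp_nat_mul]
      norm_num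
    have h2 : (2.7 : ℝ) ≤ Real.exp 1 := by
      have := Real.exp_one_gt_d9
      linarith
    rw [h1]
    calc (72 : ℝ) ≤ 2.7 ^ 5 := by norm_num
      _ ≤ Real.exp 1 ^ 5 := pow_le_pow_left₀ (by norm_num) h2 5
  have hV0 : (0 : ℝ) ≤ V := Nat.cast_nonneg V
  have hbase : ((V : ℝ) + 2) * (4 * y + 4) ≤ Real.exp (5 + 2 * ℓ + r * y) := by
    have h1 : (V : ℝ) + 2 ≤ 12 * y * X ^ r := by nlinarith
    have h2 : 4 * y + 4 ≤ 6 * y := by linarith
    have h3 : y * y = Real.exp (2 * ℓ) := by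
      rw [two_mul, Real.exp_add, hℓ, Real.exp_log hy0]
    calc ((V : ℝ) + 2) * (4 * y + 4) ≤ (12 * y * X ^ r) * (6 * y) :=
          mul_le_mul h1 h2 (by positivity) (by positivity)
      _ = 72 * (y * y) * X ^ r := by ring
      _ ≤ Real.exp 5 * (y * y) * X ^ r := by gcongr
      _ = Real.exp (5 + 2 * ℓ + r * y) := by
          rw [h3, hXr, Real.exp_add, Real.exp_add]
  have hb0 : 0 ≤ ((V : ℝ) + 2) * (4 * y + 4) := by positivity
  have hB0 : 0 ≤ 5 + 2 * ℓ + r * y := by positivity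
  unfold Lo
  rw [← hy]
  calc (((V : ℝ) + 2) * (4 * y + 4)) ^ (K * (Ω + 1))
      ≤ Real.exp (5 + 2 * ℓ + r * y) ^ (K * (Ω + 1)) := pow_le_pow_left₀ hb0 hbase _
    _ = Real.exp (((K * (Ω + 1) : ℕ) : ℝ) * (5 + 2 * ℓ + r * y)) := by
        rw [← Real.exp_nat_mul]
    _ ≤ Real.exp (y * η) := by
        apply Real.exp_le_exp.mpr
        push_cast
        have h1 : (K : ℝ) * (Ω + 1) * (5 + 2 * ℓ + r * y) ≤
            (K : ℝ) * (2 * Ω) * (5 + 2 * ℓ + r * y) := by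
          apply mul_le_mul_of_nonneg_right _ hB0
          apply mul_le_mul_of_nonneg_left _ hK
          linarith
        have h2 : (Ω : ℝ) * (r * y) = ρ * y := by
          rw [hr]
          field_simp
        have h3 : (K : ℝ) * (2 * Ω) * (5 + 2 * ℓ + r * y) =
            (K : ℝ) * (10 * Ω + 4 * (Ω * ℓ) + 2 * (Ω * (r * y))) := by ring
        have h4 : (K : ℝ) * (10 * Ω + 4 * (Ω * ℓ) + 2 * (Ω * (r * y))) ≤
            (K : ℝ) * (20 * (ρ * y)) := by
          apply mul_le_mul_of_nonneg_left _ hK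
          rw [h2]
          have h5 : 0 ≤ ρ * y := by positivity
          linarith
        have h5 : (K : ℝ) * (20 * (ρ * y)) = 20 * (K * ρ) * y := by ring
        have h6 : 20 * ((K : ℝ) * ρ) * y ≤ η * y := mul_le_mul_of_nonneg_right hρK hy0.le
        linarith
    _ = 1 * X ^ η := by
        rw [one_mul, Real.rpow_def_of_pos hX0, ← hy]

end Pool.Agent.H14.AT
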