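import Pool.Agent.H38.AT.Targets
import Pool.Agent.H82.TG.Cov

/-!
# Reduced tuples of large height: every tuple is in one of two classes
-/

set_option autoImplicit false

namespace Pool.Agent.H14.AT

open Finset
open Pool.Agent.H38.AE.Statement (Admissible)
open Pool.Agent.H38.PS (pd)
open Pool.Agent.H38.RB (tp)
open Pool.Agent.H59.AB (log_pd)
open Pool.Agent.H82.TG (pd_pos')
open Pool.Agent.H38.AT (prn htn RdN PEN PJN T_SLN)

/-- one entry -/
theorem sln_entry (L W c' : ℝ) (hL : 0 < L) (hc : 3 * c' ≤ W) (hc0 : 0 < c') (hW1 : W ≤ 1)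
    (P : Finset ℕ) (hP : ∀ p ∈ P, p.Prime) (v : ℕ → ℕ)
    (hPa : ∑ p ∈ P, Real.log (p : ℝ) ≤ W * L)
    (hPv : 8 * L ≤ ∑ p ∈ P, (v p : ℝ) * Real.log (p : ℝ)) :
    (∃ G ⊆ P, ∑ p ∈ G, Real.log (p : ℝ) ≤ (W - c') * L ∧
      4 * L ≤ ∑ p ∈ G, (v p : ℝ) * Real.log (p : ℝ)) ∨
    ∃ p ∈ P, (W - c') * L ≤ Real.log (p : ℝ) ∧ 1 < v p := by
  classical
  by_contra hcon
  push Not at hcon
  obtain ⟨hG, hp⟩ := hcon
  have hl0 : ∀ p ∈ P, 0 < Real.log (p : ℝ) := fun p h =>
    Real.log_pos (by exact_mod_cast (hP p h).one_lt)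
  by_cases hbig : ∃ p ∈ P, c' * L ≤ Real.log (p : ℝ)
  · obtain ⟨p, hpP, hpc⟩ := hbig
    have h1 : ∑ p' ∈ P.erase p, Real.log (p' : ℝ) + Real.log (p : ℝ) =
        ∑ p ∈ P, Real.log (p : ℝ) := Finset.sum_erase_add _ _ hpP
    have h2 : ∑ p' ∈ P.erase p, (v p' : ℝ) * Real.log (p' : ℝ) + (v p : ℝ) * Real.log (p : ℝ) =
        ∑ p ∈ P, (v p : ℝ) * Real.log (p : ℝ) := Finset.sum_erase_add _ _ hpP
    have h3 := hG (P.erase p) (Finset.erase_subset _ _) (by nlinarith)
    have h4 : 4 * L < (v p : ℝ) * Real.log (p : ℝ) := by linarith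
    have h5 : (W - c') * L < Real.log (p : ℝ) := by
      by_contra h6
      push Not at h6
      have h7 := hG {p} (Finset.singleton_subset_iff.mpr hpP)
        (by rw [Finset.sum_singleton]; exact h6)
      rw [Finset.sum_singleton] at h7
      linarith
    have h6 := hp p hpP h5.le
    have h7 : (v p : ℝ) ≤ 1 := by exact_mod_cast h6
    have h8 : Real.log (p : ℝ) ≤ ∑ p ∈ P, Real.log (p : ℝ) :=
      Finset.single_le_sum (f := fun p : ℕ => Real.log (p : ℝ)) (fun q hq => (hl0 q hq).le) hpP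
    have h9 := hl0 p hpP
    nlinarith
  · push Not at hbig
    let F := P.powerset.filter
      (fun S : Finset ℕ => ∑ p ∈ S, Real.log (p : ℝ) ≤ (W - c') * L)
    have hF : F.Nonempty := by
      refine ⟨∅, ?_⟩
      rw [Finset.mem_filter, Finset.mem_powerset, Finset.sum_empty]
      refine ⟨Finset.empty_subset _, ?_⟩
      have : 0 ≤ W - c' := by linarith
      positivity
    obtain ⟨S, hS, hmax⟩ := Finset.exists_max_image F Finset.card hF
    rw [Finset.mem_filter, Finset.mem_powerset] at hS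
    have hs1 := hG S hS.1 hS.2
    have hsd1 : ∑ p ∈ P \ S, (v p : ℝ) * Real.log (p : ℝ) + ∑ p ∈ S, (v p : ℝ) * Real.log (p : ℝ) =
        ∑ p ∈ P, (v p : ℝ) * Real.log (p : ℝ) := Finset.sum_sdiff hS.1
    have hsd2 : ∑ p ∈ P \ S, Real.log (p : ℝ) + ∑ p ∈ S, Real.log (p : ℝ) =
        ∑ p ∈ P, Real.log (p : ℝ) := Finset.sum_sdiff hS.1
    by_cases hPS : (P \ S).Nonempty
    · obtain ⟨p, hp1⟩ := hPS
      rw [Finset.mem_sdiff] at hp1
      have h1 : (W - c') * L < ∑ q ∈ insert p S, Real.log (q : ℝ) := by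
        by_contra h2
        push Not at h2
        have h3 := hmax (insert p S) (by
          rw [Finset.mem_filter, Finset.mem_powerset]
          exact ⟨Finset.insert_subset hp1.1 hS.1, h2⟩)
        rw [Finset.card_insert_of_notMem hp1.2] at h3
        omega
      rw [Finset.sum_insert hp1.2] at h1
      have h4 := hbig p hp1.1
      have h5 := hG (P \ S) Finset.sdiff_subset (by nlinarith)
      linarith
    · rw [Finset.not_nonempty_iff_eq_empty] at hPS
      rw [hPS, Finset.sum_empty, zero_add] at hsd1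
      linarith

theorem pd_union {A B : Finset ℕ} (h : Disjoint A B) : pd (A ∪ B) = pd A * pd B := by
  unfold pd
  exact Finset.prod_union h

theorem pd_prod {ι : Type} [DecidableEq ι] (s : Finset ι) (y : ι → ℕ) (h0 : ∀ i ∈ s, y i ≠ 0)
    (hc : ∀ i ∈ s, ∀ j ∈ s, i ≠ j → (y i).Coprime (y j)) :
    pd (∏ i ∈ s, y i).primeFactors = ∏ i ∈ s, pd (y i).primeFactors := by
  induction s using Finset.induction_on with
  | empty => simp [pd]
  | insert a s ha ih =>
    have h1 : (∏ i ∈ s, y i) ≠ 0 :=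
      Finset.prod_ne_zero_iff.mpr fun i hi => h0 i (Finset.mem_insert_of_mem hi)
    have h2 : (y a).Coprime (∏ i ∈ s, y i) := Nat.Coprime.prod_right fun i hi =>
      hc a (Finset.mem_insert_self _ _) i (Finset.mem_insert_of_mem hi) (by
        rintro rfl
        exact ha hi)
    rw [Finset.prod_insert ha, Finset.prod_insert ha,
      Nat.primeFactors_mul (h0 a (Finset.mem_insert_self _ _)) h1,
      pd_union h2.disjoint_primeFactors, ih (fun i hi => h0 i (Finset.mem_insert_of_mem hi))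
      (fun i hi j hj => hc i (Finset.mem_insert_of_mem hi) j (Finset.mem_insert_of_mem hj))]

theorem pd_prn {n : ℕ} {x : Fin n → ℤ} (hx : Admissible x) :
    pd (prn x).primeFactors = ∏ l, pd (x l).natAbs.primeFactors := by
  have h1 : prn x = ∏ l, (x l).natAbs := by
    show Int.natAbsHom (∏ i, x i) = _
    rw [map_prod]
    rfl
  rw [h1]
  exact pd_prod Finset.univ (fun l => (x l).natAbs) (fun l _ => Int.natAbs_ne_zero.mpr (hx.1 l))
    (fun i _ j _ hij => Int.isCoprime_iff_gcd_eq_one.mp (hx.2.1 i j hij))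

/-- the logarithms of the radicals of the entries -/
theorem sln_rad {n : ℕ} {x : Fin n → ℤ} (hx : Admissible x) {X ρ : ℝ} (hX : 1 < X)
    (hR : (pd (prn x).primeFactors : ℝ) ≤ X)
    (hlow : ∀ i, X ^ (1 / (n : ℝ) - ρ) ≤ (pd (x i).natAbs.primeFactors : ℝ)) (k : Fin n) :
    Real.log (pd (x k).natAbs.primeFactors : ℝ) ≤ (1 / (n : ℝ) + (n - 1) * ρ) * Real.log X := by
  classical
  have hn : (0 : ℝ) < n := by exact_mod_cast Fin.pos k
  have hX0 : 0 < X := by linarith
  have hpos : ∀ l, (0 : ℝ) < pd (x l).natAbs.primeFactors := fun l =>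
    pd_pos' fun p hp => Nat.prime_of_mem_primeFactors hp
  have h1 : ∑ l, Real.log (pd (x l).natAbs.primeFactors : ℝ) ≤ Real.log X := by
    rw [← Real.log_prod fun l _ => (hpos l).ne']
    apply Real.log_le_log (Finset.prod_pos fun l _ => hpos l)
    have h2 := pd_prn hx
    rw [h2] at hR
    push_cast at hR
    exact hR
  have h2 : ∀ l, (1 / (n : ℝ) - ρ) * Real.log X ≤
      Real.log (pd (x l).natAbs.primeFactors : ℝ) := by
    intro l
    rw [← Real.log_rpow hX0]
    exact Real.log_le_log (by positivity) (hlow l)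
  have h3 := Finset.sum_erase_add Finset.univ
    (fun l => Real.log (pd (x l).natAbs.primeFactors : ℝ)) (Finset.mem_univ k)
  have h4 : ((n : ℝ) - 1) * ((1 / (n : ℝ) - ρ) * Real.log X) ≤
      ∑ l ∈ Finset.univ.erase k, Real.log (pd (x l).natAbs.primeFactors : ℝ) := by
    have h5 := Finset.card_nsmul_le_sum (Finset.univ.erase k)
      (fun l => Real.log (pd (x l).natAbs.primeFactors : ℝ))
      ((1 / (n : ℝ) - ρ) * Real.log X) (fun l _ => h2 l)
    rw [Finset.card_erase_of_mem (Finset.mem_univ k), Finset.card_univ, Fintype.card_fin,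
      nsmul_eq_mul, Nat.cast_sub (by have := Fin.pos k; omega), Nat.cast_one] at h5
    exact h5
  have h6 : (1 / (n : ℝ) + (n - 1) * ρ) * Real.log X =
      Real.log X - ((n : ℝ) - 1) * ((1 / (n : ℝ) - ρ) * Real.log X) := by
    field_simp
    ring
  rw [h6]
  linarith

/-- two large entries -/
theorem sln_two {n : ℕ} {x : Fin n → ℤ} (hx : Admissible x) (hn : 3 ≤ n) :
    ∃ i j : Fin n, i ≠ j ∧ htn x ≤ n * (x i).natAbs ∧ htn x ≤ n * (x j).natAbs := by
  classical
  have hne : (Finset.univ : Finset (Fin n)).Nonempty := ⟨⟨0, by omega⟩, Finset.mem_univ _⟩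
  obtain ⟨i, -, hi⟩ := Finset.exists_mem_eq_sup Finset.univ hne (fun i => (x i).natAbs)
  have hi' : htn x = (x i).natAbs := hi
  have hne2 : (Finset.univ.erase i : Finset (Fin n)).Nonempty := by
    rw [← Finset.card_pos, Finset.card_erase_of_mem (Finset.mem_univ i), Finset.card_univ,
      Fintype.card_fin]
    omega
  obtain ⟨j, hj, hmax⟩ := Finset.exists_max_image (Finset.univ.erase i)
    (fun l => (x l).natAbs) hne2
  refine ⟨i, j, (Finset.ne_of_mem_erase hj).symm, ?_, ?_⟩
  · rw [hi']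
    exact Nat.le_mul_of_pos_left _ (by omega)
  · rw [hi']
    have h1 : x i = -∑ l ∈ Finset.univ.erase i, x l := by
      have h2 := Finset.sum_erase_add Finset.univ x (Finset.mem_univ i)
      rw [hx.2.2] at h2
      linarith
    calc (x i).natAbs = (∑ l ∈ Finset.univ.erase i, x l).natAbs := by rw [h1, Int.natAbs_neg]
      _ ≤ ∑ l ∈ Finset.univ.erase i, (x l).natAbs := by
          exact Int.natAbs_sum_le _ _
      _ ≤ ∑ _l ∈ Finset.univ.erase i, (x j).natAbs := Finset.sum_le_sum fun l hl => hmax l hl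
      _ = (n - 1) * (x j).natAbs := by
          rw [Finset.sum_const, Finset.card_erase_of_mem (Finset.mem_univ i), Finset.card_univ,
            Fintype.card_fin, smul_eq_mul]
      _ ≤ n * (x j).natAbs := Nat.mul_le_mul_right _ (by omega)

/-- the cost of a good set of primes -/
theorem sln_cost {n : ℕ} (hn : 3 ≤ n) (X W c' z : ℝ) (hX : 1 < X) (R : Fin n → ℝ) (D : ℝ)
    (hR0 : ∀ l, 0 ≤ R l) (hR : ∀ l, R l ≤ X ^ W) (hD : D ≤ X ^ (W - c'))
    (hz : (n - 1) * W - c' ≤ z) (i j k : Fin n) (hij : i ≠ j) (hik : i ≠ k) (hjk : j ≠ k) :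
    D * (∏ l ∈ Finset.univ.filter (fun l => l ≠ i ∧ l ≠ j ∧ l ≠ k), R l) *
      Real.sqrt (R i * R j) ≤ X ^ z := by
  classical
  have hX0 : 0 < X := by linarith
  have hcard : ((Finset.univ.filter (fun l => l ≠ i ∧ l ≠ j ∧ l ≠ k)).card : ℝ) = n - 3 := by
    have e1 : (Finset.univ.filter (fun l => l ≠ i ∧ l ≠ j ∧ l ≠ k)) =
        Finset.univ \ ({i, j, k} : Finset (Fin n)) := by
      ext l
      simp only [Finset.mem_filter, Finset.mem_univ, true_and, Finset.mem_sdiff,
        Finset.mem_insert, Finset.mem_singleton, not_or]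
    have e2 : ({i, j, k} : Finset (Fin n)).card = 3 := by
      rw [Finset.card_insert_of_notMem, Finset.card_insert_of_notMem, Finset.card_singleton]
      · simpa using hjk
      · simp only [Finset.mem_insert, Finset.mem_singleton, not_or]
        exact ⟨hij, hik⟩
    rw [e1, Finset.card_sdiff_of_subset (Finset.subset_univ _), e2, Finset.card_univ,
      Fintype.card_fin, Nat.cast_sub hn]
    norm_num
  have hprod : ∏ l ∈ Finset.univ.filter (fun l => l ≠ i ∧ l ≠ j ∧ l ≠ k), R l ≤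
      X ^ (((n : ℝ) - 3) * W) := by
    calc _ ≤ ∏ _l ∈ Finset.univ.filter (fun l => l ≠ i ∧ l ≠ j ∧ l ≠ k), X ^ W :=
          Finset.prod_le_prod (fun l _ => hR0 l) fun l _ => hR l
      _ = X ^ (((n : ℝ) - 3) * W) := by
          rw [Finset.prod_const, ← Real.rpow_natCast, ← Real.rpow_mul hX0.le, hcard, mul_comm]
  have hP0 : 0 ≤ ∏ l ∈ Finset.univ.filter (fun l => l ≠ i ∧ l ≠ j ∧ l ≠ k), R l :=
    Finset.prod_nonneg fun l _ => hR0 l
  have hsq : Real.sqrt (R i * R j) ≤ X ^ W := by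
    have hXW : 0 ≤ X ^ W := by positivity
    calc Real.sqrt (R i * R j) ≤ Real.sqrt (X ^ W * X ^ W) :=
          Real.sqrt_le_sqrt (mul_le_mul (hR i) (hR j) (hR0 j) hXW)
      _ = X ^ W := Real.sqrt_mul_self hXW
  calc D * (∏ l ∈ Finset.univ.filter (fun l => l ≠ i ∧ l ≠ j ∧ l ≠ k), R l) *
        Real.sqrt (R i * R j)
      ≤ X ^ (W - c') * X ^ (((n : ℝ) - 3) * W) * X ^ W :=
        mul_le_mul (mul_le_mul hD hprod hP0 (by positivity)) hsq (Real.sqrt_nonneg _)
          (by positivity)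
    _ = X ^ ((n - 1) * W - c') := by
        rw [← Real.rpow_add hX0, ← Real.rpow_add hX0]
        congr 1
        ring
    _ ≤ X ^ z := Real.rpow_le_rpow_of_exponent_le hX.le hz

theorem pf_SLN : T_SLN := by
  classical
  intro n hn
  have hn0 : (0 : ℝ) < n := by exact_mod_cast (by omega : 0 < n)
  have hn3 : (3 : ℝ) ≤ n := by exact_mod_cast hn
  obtain ⟨t, ht⟩ : ∃ t : ℝ, t = 1 / (n : ℝ) := ⟨_, rfl⟩
  have ht0 : 0 < t := by rw [ht]; positivity
  have hnt : (n : ℝ) * t = 1 := by rw [ht]; field_simp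
  have ht3 : t ≤ 1 / 3 := by
    rw [ht]
    exact one_div_le_one_div_of_le (by norm_num) hn3
  obtain ⟨ρ, hρ⟩ : ∃ ρ : ℝ, ρ = t ^ 3 / 20 := ⟨_, rfl⟩
  have hρ0 : 0 < ρ := by rw [hρ]; positivity
  refine ⟨n + 8, ρ, t / 20, by linarith, hρ0, by positivity, ?_⟩
  intro X x hX hx hht
  obtain ⟨hadm, hRX, hlow, -⟩ := hx
  have hX1 : 1 < X := by linarith
  have hX0 : 0 < X := by linarith
  obtain ⟨L, hL⟩ : ∃ L : ℝ, L = Real.log X := ⟨_, rfl⟩
  have hL0 : 0 < L := by rw [hL]; exact Real.log_pos hX1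
  have hL2 : Real.log 2 ≤ L := by rw [hL]; exact Real.log_le_log (by norm_num) hX
  obtain ⟨W, hW⟩ : ∃ W : ℝ, W = 1 / (n : ℝ) + (n - 1) * ρ := ⟨_, rfl⟩
  have hWt : W = t + (n - 1) * ρ := by rw [hW, ht]
  have hnρ : ((n : ℝ) - 1) * ρ = t ^ 2 / 20 - t ^ 3 / 20 := by
    have h1 : (n : ℝ) * ρ = t ^ 2 / 20 := by
      rw [hρ]
      calc (n : ℝ) * (t ^ 3 / 20) = (n * t) * t ^ 2 / 20 := by ring
        _ = t ^ 2 / 20 := by rw [hnt, one_mul]
    rw [sub_mul, h1, one_mul, hρ]
  have ht2 : 0 < t ^ 2 := by positivity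
  have ht2' : t ^ 2 ≤ 1 / 3 * t := by nlinarith
  have ht30 : 0 < t ^ 3 := by positivity
  have ht3' : t ^ 3 ≤ 1 / 3 * t ^ 2 := by nlinarith
  have hW1 : W ≤ 1 := by rw [hWt, hnρ]; linarith
  have hWlow : t ≤ W := by rw [hWt, hnρ]; linarith
  have hpos : ∀ l, (0 : ℝ) < pd (x l).natAbs.primeFactors := fun l =>
    pd_pos' fun p hp => Nat.prime_of_mem_primeFactors hp
  have hrad : ∀ l, Real.log (pd (x l).natAbs.primeFactors : ℝ) ≤ W * L := by
    intro l
    rw [hW, hL]
    exact sln_rad hadm hX1 hRX hlow l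
  have hradX : ∀ l, (pd (x l).natAbs.primeFactors : ℝ) ≤ X ^ W := by
    intro l
    rw [← Real.log_le_log_iff (hpos l) (by positivity), Real.log_rpow hX0, ← hL]
    exact hrad l
  -- the entries which are large
  have key : ∀ k : Fin n, htn x ≤ n * (x k).natAbs →
      PEN X (X ^ (1 - 1 / (n : ℝ) - t / 20)) x ∨
      ∃ p : ℕ, p.Prime ∧ (W - t / 10) * L ≤ Real.log (p : ℝ) ∧
        1 < (x k).natAbs.factorization p := by
    intro k hk
    have hk0 : (x k).natAbs ≠ 0 := Int.natAbs_ne_zero.mpr (hadm.1 k)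
    have hP : ∀ p ∈ (x k).natAbs.primeFactors, p.Prime := fun p hp =>
      Nat.prime_of_mem_primeFactors hp
    have htp : tp (x k).natAbs.primeFactors (x k).natAbs = (x k).natAbs :=
      Nat.prod_factorization_pow_eq_self hk0
    have hsize : 8 * L ≤ ∑ p ∈ (x k).natAbs.primeFactors,
        ((x k).natAbs.factorization p : ℝ) * Real.log (p : ℝ) := by
      rw [← Pool.Agent.H38.RB.smo_log_tp _ hP, htp]
      have hh0 : 0 < htn x := by
        have h1 : (x k).natAbs ≤ htn x :=
          Finset.le_sup (f := fun i => (x i).natAbs) (Finset.mem_univ k)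
        omega
      have h1 : Real.log (htn x) ≤ Real.log n + Real.log ((x k).natAbs : ℝ) := by
        rw [← Real.log_mul hn0.ne' (by exact_mod_cast hk0)]
        apply Real.log_le_log (by exact_mod_cast hh0)
        exact_mod_cast hk
      have h2 : Real.log (n : ℝ) ≤ n * L := by
        have h3 : (n : ℝ) ≤ (2 : ℝ) ^ n := by exact_mod_cast Nat.lt_two_pow_self.le
        have h4 := Real.log_le_log hn0 h3
        rw [Real.log_pow] at h4
        nlinarith
      rw [← hL] at hht
      nlinarith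
    have hent := sln_entry L W (t / 10) hL0 (by linarith) (by positivity) hW1
      (x k).natAbs.primeFactors hP (fun p => (x k).natAbs.factorization p)
      (by rw [← log_pd _ hP]; exact hrad k) hsize
    rcases hent with ⟨G, hG, hGa, hGv⟩ | ⟨p, hp, hpa, hpv⟩
    · left
      have hGp : ∀ p ∈ G, p.Prime := fun p hp => hP p (hG hp)
      obtain ⟨i, hi, j, hj, hij⟩ : ∃ i ∈ Finset.univ.erase k, ∃ j ∈ Finset.univ.erase k,
          i ≠ j := by
        apply Finset.one_lt_card.mp
        rw [Finset.card_erase_of_mem (Finset.mem_univ k), Finset.card_univ, Fintype.card_fin]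
        omega
      have hik := Finset.ne_of_mem_erase hi
      have hjk := Finset.ne_of_mem_erase hj
      refine ⟨i, j, k, G, hij, hik, hjk, hG, ?_, ?_⟩
      · have h1 : (0 : ℝ) < tp G (x k).natAbs := Pool.Agent.H38.RB.smo_tp_pos _ hGp _
        rw [← Real.log_le_log_iff (by positivity) h1, Real.log_pow, ← hL,
          Pool.Agent.H38.RB.smo_log_tp _ hGp]
        push_cast
        exact hGv
      · refine sln_cost hn X W (t / 10) _ hX1 (fun l => (pd (x l).natAbs.primeFactors : ℝ)) _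
          (fun l => (hpos l).le) hradX ?_ ?_ i j k hij hik hjk
        · rw [← Real.log_le_log_iff (pd_pos' hGp) (by positivity), Real.log_rpow hX0, ← hL,
            log_pd _ hGp]
          exact hGa
        · rw [← ht, hWt]
          have h1 : ((n : ℝ) - 1) * (t + (n - 1) * ρ) - t / 10 =
              n * t - t + (n - 1) * ((n - 1) * ρ) - t / 10 := by ring
          rw [h1, hnt, hnρ]
          have h2 : ((n : ℝ) - 1) * (t ^ 2 / 20 - t ^ 3 / 20) ≤ t / 20 := by
            have h3 : ((n : ℝ) - 1) * (t ^ 2 / 20 - t ^ 3 / 20) =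
                (n * t) * t / 20 - (n * t) * t ^ 2 / 20 - t ^ 2 / 20 + t ^ 3 / 20 := by ring
            rw [h3, hnt]
            linarith
          linarith
    · right
      exact ⟨p, hP p hp, hpa, hpv⟩
  obtain ⟨i, j, hij, hi, hj⟩ := sln_two hadm hn
  rcases key i hi with h | ⟨p, hp, hpa, hpv⟩
  · exact Or.inl h
  rcases key j hj with h | ⟨r, hr, hra, hrv⟩
  · exact Or.inl h
  right
  refine ⟨i, j, p, r, hij, hp, hr, hpv, hrv, ?_⟩
  have hp0 : (0 : ℝ) < p := by exact_mod_cast hp.pos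
  have hr0 : (0 : ℝ) < r := by exact_mod_cast hr.pos
  have hR0 : (0 : ℝ) < pd (prn x).primeFactors :=
    pd_pos' fun p hp => Nat.prime_of_mem_primeFactors hp
  rw [← Real.log_le_log_iff (by positivity) (by positivity), Real.log_mul (by positivity)
    (by positivity), Real.log_rpow (by positivity), Real.log_mul (by positivity) (by positivity),
    Real.log_mul (by positivity) (by positivity), Real.log_rpow hX0, Real.log_mul (by positivity)
    (by positivity), ← hL, ← ht]
  have h1 : Real.log (pd (prn x).primeFactors : ℝ) ≤ L := by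
    rw [hL]
    exact Real.log_le_log hR0 hRX
  have h2 : (t - t / 10) * L ≤ (W - t / 10) * L := by
    apply mul_le_mul_of_nonneg_right _ hL0.le
    linarith
  nlinarith

end Pool.Agent.H14.AT
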